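import Mathlib

/-!
# MP_85e029_nt: spectra of complex bases with small argument are not relatively dense

Let `γ` be a complex number with `Re γ ≥ 0`, `Re γ ^ 2 ≥ 0` and `r = |γ| > 1`, and let `m` be a
natural number with `m < r ^ 2 (r - 1)` and `r ^ 3 (1 - m / (r ^ 2 (r - 1))) > 1`. Then `X^m(γ)` is
not relatively dense in `ℂ`. For `r > 2.2` this range of `m` contains integers `m > r ^ 2 - 1`.
Examples: `γ = 2 + i`, `m = 5`, and the complex Pisot unit `γ` with `γ³ - 4γ² + 6γ - 1 = 0`, `m = 5`.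
-/

set_option autoImplicit false

namespace Pool.Agent.Results.MP_85e029_nt.SmallArguments

open Complex Finset

/-- the set `X^m(q)` -/
def X (m : ℕ) (q : ℂ) : Set ℂ :=
  {z | ∃ (n : ℕ) (a : ℕ → ℕ), (∀ j, a j ≤ m) ∧ z = ∑ j ∈ range (n + 1), (a j : ℂ) * q ^ j}

/-- relatively dense subsets of the plane -/
def RelativelyDense (S : Set ℂ) : Prop := ∃ R : ℝ, 0 < R ∧ ∀ c : ℂ, ∃ s ∈ S, ‖s - c‖ ≤ R

/-- complex Pisot units: non-real roots `γ`, `|γ| > 1`, of an irreducible monic integer polynomial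
with constant term `±1` all of whose other roots, except for the conjugate of `γ`, have modulus less
than `1` -/
def IsComplexPisotUnit (γ : ℂ) : Prop :=
  γ.im ≠ 0 ∧ 1 < ‖γ‖ ∧ ∃ f : Polynomial ℤ, f.Monic ∧
    Irreducible (f.map (Int.castRingHom ℚ)) ∧ |f.coeff 0| = 1 ∧ Polynomial.aeval γ f = 0 ∧
    ∀ z : ℂ, Polynomial.aeval z f = 0 → z ≠ γ → z ≠ (starRingEnd ℂ) γ → ‖z‖ < 1

/-- lower bound for the real part -/
lemma re_ge (γ : ℂ) (m : ℕ) (hr : 1 < ‖γ‖) (h1 : 0 ≤ γ.re) (h2 : 0 ≤ (γ ^ 2).re) (a : ℕ → ℕ)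
    (ha : ∀ j, a j ≤ m) (M N : ℕ) (hN : N < M) (h0 : ∀ j, N + 3 ≤ j → a j = 0) :
    (a N : ℝ) - m / (‖γ‖ ^ 2 * (‖γ‖ - 1)) ≤
      ((∑ j ∈ range M, (a j : ℂ) * γ ^ j) / γ ^ N).re := by
  obtain ⟨r, hrd⟩ : ∃ r : ℝ, r = ‖γ‖ := ⟨_, rfl⟩
  rw [← hrd] at hr ⊢
  have hr0 : 0 < r := by linarith
  have hγ : γ ≠ 0 := by
    rintro rfl
    rw [norm_zero] at hrd
    linarith
  have hγN : γ ^ N ≠ 0 := pow_ne_zero _ hγ
  have hinv : ∀ z : ℂ, z ≠ 0 → 0 ≤ z.re → 0 ≤ (z⁻¹).re := by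
    intro z _ hz
    rw [Complex.inv_re]
    exact div_nonneg hz (Complex.normSq_nonneg _)
  have hterm : ∀ j, (if j = N then (a N : ℝ) else 0) - (if j + 3 ≤ N then (m : ℝ) * r ^ j / r ^ N
      else 0) ≤ (a j : ℝ) * (γ ^ j / γ ^ N).re := by
    intro j
    have haj : (0 : ℝ) ≤ a j := Nat.cast_nonneg _
    by_cases e0 : j = N
    · subst e0
      rw [if_pos rfl, if_neg (by omega), div_self hγN]
      simp
    rw [if_neg e0]
    by_cases e1 : j + 3 ≤ N
    · rw [if_pos e1]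
      have f1 : -(r ^ j / r ^ N) ≤ (γ ^ j / γ ^ N).re := by
        have := Complex.abs_re_le_norm (γ ^ j / γ ^ N)
        rw [norm_div, norm_pow, norm_pow, ← hrd] at this
        exact (abs_le.1 this).1
      have f2 : (a j : ℝ) ≤ m := by exact_mod_cast ha j
      have f3 : 0 ≤ r ^ j / r ^ N := by positivity
      calc (0 : ℝ) - m * r ^ j / r ^ N = -(m * (r ^ j / r ^ N)) := by ring
        _ ≤ -(a j * (r ^ j / r ^ N)) := by
            rw [neg_le_neg_iff]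
            exact mul_le_mul_of_nonneg_right f2 f3
        _ = a j * (-(r ^ j / r ^ N)) := by ring
        _ ≤ _ := mul_le_mul_of_nonneg_left f1 haj
    rw [if_neg e1, sub_zero]
    by_cases e2 : N + 3 ≤ j
    · rw [h0 j e2]
      simp
    apply mul_nonneg haj
    have e3 : j = N + 1 ∨ j = N + 2 ∨ N = j + 1 ∨ N = j + 2 := by omega
    rcases e3 with rfl | rfl | rfl | rfl
    · rw [pow_succ, mul_div_cancel_left₀ _ hγN]
      exact h1
    · rw [pow_add, mul_div_cancel_left₀ _ hγN]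
      exact h2
    · rw [pow_succ, div_mul_cancel_left₀ (pow_ne_zero _ hγ)]
      exact hinv _ hγ h1
    · rw [pow_add, div_mul_cancel_left₀ (pow_ne_zero _ hγ)]
      exact hinv _ (pow_ne_zero _ hγ) h2
  have hsum : ((∑ j ∈ range M, (a j : ℂ) * γ ^ j) / γ ^ N).re =
      ∑ j ∈ range M, (a j : ℝ) * (γ ^ j / γ ^ N).re := by
    rw [Finset.sum_div, Complex.re_sum]
    refine Finset.sum_congr rfl fun j _ => ?_
    rw [mul_div_assoc, ← Complex.ofReal_natCast, Complex.re_ofReal_mul]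
  rw [hsum]
  refine le_trans ?_ (Finset.sum_le_sum fun j _ => hterm j)
  rw [Finset.sum_sub_distrib, Finset.sum_ite_eq' (range M) N, if_pos (mem_range.2 hN)]
  apply sub_le_sub_left
  rw [← Finset.sum_filter]
  have hsub : (range M).filter (fun j => j + 3 ≤ N) ⊆ range (N - 2) := by
    intro j hj
    rw [mem_filter] at hj
    rw [mem_range]
    omega
  refine le_trans (Finset.sum_le_sum_of_subset_of_nonneg hsub fun j _ _ => by positivity) ?_
  have e1 : ∑ j ∈ range (N - 2), (m : ℝ) * r ^ j / r ^ N =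
      m / r ^ N * ∑ j ∈ range (N - 2), r ^ j := by
    rw [Finset.mul_sum]
    refine Finset.sum_congr rfl fun j _ => ?_
    ring
  rw [e1, geom_sum_eq hr.ne']
  rcases le_or_gt 2 N with h | h
  · obtain ⟨N, rfl⟩ := Nat.exists_eq_add_of_le' h
    rw [Nat.add_sub_cancel, div_mul_div_comm, pow_add, mul_comm (r ^ N), mul_assoc]
    have hr1 : 0 < r - 1 := by linarith
    rw [div_le_div_iff₀ (by positivity) (by positivity)]
    have : 0 ≤ (m : ℝ) * (r ^ 2 * (r - 1)) := by positivity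
    nlinarith [this]
  · rw [show N - 2 = 0 by omega]
    simp only [pow_zero, sub_self, zero_div, mul_zero]
    have hr1 : 0 < r - 1 := by linarith
    positivity

theorem not_dense (γ : ℂ) (m : ℕ) (hr : 1 < ‖γ‖) (h1 : 0 ≤ γ.re) (h2 : 0 ≤ (γ ^ 2).re)
    (hτ : (m : ℝ) / (‖γ‖ ^ 2 * (‖γ‖ - 1)) < 1)
    (hs : 1 < ‖γ‖ ^ 3 * (1 - (m : ℝ) / (‖γ‖ ^ 2 * (‖γ‖ - 1)))) : ¬ RelativelyDense (X m γ) := by
  rintro ⟨R, hR, hd⟩
  obtain ⟨r, hrd⟩ : ∃ r : ℝ, r = ‖γ‖ := ⟨_, rfl⟩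
  obtain ⟨τ, hτd⟩ : ∃ τ : ℝ, τ = (m : ℝ) / (‖γ‖ ^ 2 * (‖γ‖ - 1)) := ⟨_, rfl⟩
  rw [← hτd] at hτ hs
  rw [← hrd] at hs
  have hr' : 1 < r := by rw [hrd]; exact hr
  have hr0 : 0 < r := by linarith
  have hγ : γ ≠ 0 := by
    rintro rfl
    rw [norm_zero] at hr
    linarith
  obtain ⟨δ, hδ⟩ : ∃ δ : ℝ, δ = min (1 - τ) (r ^ 3 * (1 - τ) - 1) := ⟨_, rfl⟩
  have hδ0 : 0 < δ := by
    rw [hδ]
    exact lt_min (by linarith) (by linarith)
  obtain ⟨N, hN⟩ := pow_unbounded_of_one_lt (R / δ) hr'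
  rw [div_lt_iff₀ hδ0] at hN
  obtain ⟨z, ⟨n, a0, ha0, rfl⟩, hz⟩ := hd (-γ ^ N)
  rw [sub_neg_eq_add] at hz
  -- extend the digits by zero
  obtain ⟨a, ha⟩ : ∃ a : ℕ → ℕ, ∀ j, a j = if j < n + 1 then a0 j else 0 := ⟨_, fun _ => rfl⟩
  have ham : ∀ j, a j ≤ m := by
    intro j
    rw [ha]
    split_ifs
    · exact ha0 j
    · exact Nat.zero_le _
  have hsum : ∀ M, n + 1 ≤ M → ∑ j ∈ range (n + 1), (a0 j : ℂ) * γ ^ j =
      ∑ j ∈ range M, (a j : ℂ) * γ ^ j := by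
    intro M hM
    rw [← Finset.sum_subset (Finset.range_subset_range.2 hM)
      (f := fun j => (a j : ℂ) * γ ^ j)]
    · refine Finset.sum_congr rfl fun j hj => ?_
      rw [ha, if_pos (mem_range.1 hj)]
    · intro j _ hj
      rw [mem_range] at hj
      rw [ha, if_neg hj]
      simp
  obtain ⟨M, hM⟩ : ∃ M, M = n + 1 + N + 1 := ⟨_, rfl⟩
  obtain ⟨S, hS⟩ : ∃ S : ℂ, S = ∑ j ∈ range (n + 1), (a0 j : ℂ) * γ ^ j := ⟨_, rfl⟩
  rw [← hS] at hz
  have hSM : S = ∑ j ∈ range M, (a j : ℂ) * γ ^ j := by rw [hS]; exact hsum M (by omega)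
  have hτ' : (m : ℝ) / (‖γ‖ ^ 2 * (‖γ‖ - 1)) = τ := hτd.symm
  have key : δ * r ^ N ≤ ‖S + γ ^ N‖ := by
    by_cases hc : ∀ j, N + 3 ≤ j → a j = 0
    · have h3 := re_ge γ m hr h1 h2 a ham M N (by omega) hc
      rw [hτ', ← hSM] at h3
      have h4 : (1 - τ : ℝ) ≤ ((S + γ ^ N) / γ ^ N).re := by
        rw [add_div, div_self (pow_ne_zero _ hγ), Complex.add_re, Complex.one_re]
        have : (0 : ℝ) ≤ a N := Nat.cast_nonneg _
        linarith
      have h5 := h4.trans ((le_abs_self _).trans (Complex.abs_re_le_norm _))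
      rw [norm_div, norm_pow, ← hrd, le_div_iff₀ (by positivity)] at h5
      refine le_trans ?_ h5
      apply mul_le_mul_of_nonneg_right _ (by positivity)
      rw [hδ]
      exact min_le_left _ _
    · push Not at hc
      obtain ⟨j0, hj0, hj1⟩ := hc
      -- the largest index with nonzero digit
      obtain ⟨t, ht, htmax⟩ : ∃ t, (a t ≠ 0 ∧ N + 3 ≤ t) ∧ ∀ j, t < j → a j = 0 := by
        have hfin : ∀ j, a j ≠ 0 → j ≤ n := by
          intro j hj
          by_contra h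
          apply hj
          rw [ha, if_neg (by omega)]
        classical
        refine ⟨Nat.findGreatest (fun j => a j ≠ 0) n, ⟨?_, ?_⟩, ?_⟩
        · exact Nat.findGreatest_spec (P := fun j => a j ≠ 0) (hfin j0 hj1) hj1
        · exact hj0.trans (Nat.le_findGreatest (hfin j0 hj1) hj1)
        · intro j hj
          by_contra h
          have h' := Nat.le_findGreatest (P := fun j => a j ≠ 0) (hfin j h) h
          omega
      have htn : t < n + 1 := by
        by_contra h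
        apply ht.1
        rw [ha, if_neg h]
      have h3 := re_ge γ m hr h1 h2 a ham M t (by omega) fun j hj => htmax j (by omega)
      rw [hτ', ← hSM] at h3
      have h4 : (1 : ℝ) ≤ a t := by exact_mod_cast Nat.one_le_iff_ne_zero.2 ht.1
      have h5 : 1 - τ ≤ ‖S / γ ^ t‖ :=
        (by linarith : 1 - τ ≤ _).trans (h3.trans ((le_abs_self _).trans
          (Complex.abs_re_le_norm _)))
      rw [norm_div, norm_pow, ← hrd, le_div_iff₀ (by positivity)] at h5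
      have h6 : r ^ (N + 3) ≤ r ^ t := pow_le_pow_right₀ hr'.le ht.2
      have h7 : (1 - τ) * r ^ (N + 3) ≤ ‖S‖ :=
        (mul_le_mul_of_nonneg_left h6 (by linarith)).trans h5
      have h8 : ‖S‖ ≤ ‖S + γ ^ N‖ + r ^ N := by
        have := norm_sub_le (S + γ ^ N) (γ ^ N)
        rw [add_sub_cancel_right, norm_pow, ← hrd] at this
        exact this
      have h9 : δ ≤ r ^ 3 * (1 - τ) - 1 := by
        rw [hδ]
        exact min_le_right _ _
      calc δ * r ^ N ≤ (r ^ 3 * (1 - τ) - 1) * r ^ N :=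
            mul_le_mul_of_nonneg_right h9 (by positivity)
        _ = (1 - τ) * r ^ (N + 3) - r ^ N := by ring
        _ ≤ ‖S + γ ^ N‖ := by linarith
  linarith [mul_comm δ (r ^ N)]

/-- the example `2 + i` -/
lemma ex_one : ¬ RelativelyDense (X 5 (2 + I)) ∧ ‖(2 + I : ℂ)‖ ^ 2 = 5 := by
  have hn2 : ‖(2 + I : ℂ)‖ ^ 2 = 5 := by
    rw [← Complex.normSq_eq_norm_sq, Complex.normSq_apply]
    simp
    norm_num
  have hn0 := norm_nonneg (2 + I : ℂ)
  obtain ⟨r, hr⟩ : ∃ r : ℝ, r = ‖(2 + I : ℂ)‖ := ⟨_, rfl⟩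
  rw [← hr] at hn2 hn0
  have r1 : 2.23 < r := by nlinarith
  have r2 : r < 2.24 := by nlinarith
  refine ⟨not_dense (2 + I) 5 ?_ ?_ ?_ ?_ ?_, by rw [← hr]; exact hn2⟩
  · rw [← hr]
    linarith
  · simp
  · rw [pow_two, Complex.mul_re]
    simp
    norm_num
  · rw [← hr, hn2, div_lt_one (by nlinarith)]
    push_cast
    nlinarith
  · rw [← hr, hn2]
    have h1 : (0 : ℝ) < r - 1 := by linarith
    have e : r ^ 3 * (1 - ((5 : ℕ) : ℝ) / (5 * (r - 1))) = 5 * r * ((r - 2) / (r - 1)) := by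
      have : r ^ 3 = 5 * r := by rw [pow_succ, hn2]
      rw [this]
      push_cast
      field_simp
      ring
    rw [e, ← mul_div_assoc, lt_div_iff₀ h1]
    nlinarith

/-- the polynomial of the second example -/
noncomputable def f : Polynomial ℤ :=
  Polynomial.X ^ 3 - 4 * Polynomial.X ^ 2 + 6 * Polynomial.X - 1

lemma f_monic : f.Monic := by
  unfold f
  monicity!

instance : Fact (Nat.Prime 5) := ⟨by norm_num⟩

lemma no_root : ∀ a : ZMod 5, a ^ 3 - 4 * a ^ 2 + 6 * a - 1 ≠ 0 := by decide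

lemma f_irr : Irreducible (f.map (Int.castRingHom ℚ)) := by
  have h1 : Irreducible f := by
    apply f_monic.irreducible_of_irreducible_map (Int.castRingHom (ZMod 5))
    have hm2 : (f.map (Int.castRingHom (ZMod 5))).Monic := f_monic.map _
    have e : f.map (Int.castRingHom (ZMod 5)) =
        Polynomial.X ^ 3 - 4 * Polynomial.X ^ 2 + 6 * Polynomial.X - 1 := by
      unfold f
      simp
    have hd : (f.map (Int.castRingHom (ZMod 5))).natDegree = 3 := by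
      rw [f_monic.natDegree_map]
      unfold f
      compute_degree!
    rw [hm2.irreducible_iff_roots_eq_zero_of_degree_le_three (by rw [hd]; norm_num)
      (by rw [hd])]
    apply Multiset.eq_zero_of_forall_notMem
    intro a ha
    rw [Polynomial.mem_roots hm2.ne_zero, Polynomial.IsRoot.def, e] at ha
    simp only [Polynomial.eval_add, Polynomial.eval_sub, Polynomial.eval_pow, Polynomial.eval_X,
      Polynomial.eval_one, Polynomial.eval_mul, Polynomial.eval_ofNat] at ha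
    exact no_root a ha
  exact (f_monic.irreducible_iff_irreducible_map_fraction_map (K := ℚ)).1 h1

lemma aeval_f (z : ℂ) : Polynomial.aeval z f = z ^ 3 - 4 * z ^ 2 + 6 * z - 1 := by
  have h4 : (Polynomial.aeval z) (4 : Polynomial ℤ) = 4 := by
    rw [show (4 : Polynomial ℤ) = Polynomial.C 4 from rfl, Polynomial.aeval_C]
    norm_num
  have h6 : (Polynomial.aeval z) (6 : Polynomial ℤ) = 6 := by
    rw [show (6 : Polynomial ℤ) = Polynomial.C 6 from rfl, Polynomial.aeval_C]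
    norm_num
  unfold f
  simp [h4, h6]

/-- the second example: a complex Pisot unit -/
lemma ex_two : ∃ γ : ℂ, γ ^ 3 - 4 * γ ^ 2 + 6 * γ - 1 = 0 ∧ IsComplexPisotUnit γ ∧
    ‖γ‖ ^ 2 - 1 < 5 ∧ ¬ RelativelyDense (X 5 γ) := by
  have hc : ContinuousOn (fun x : ℝ => x ^ 3 - 4 * x ^ 2 + 6 * x - 1) (Set.Icc 0.18 0.19) := by
    fun_prop
  obtain ⟨s, hs, hs0⟩ := intermediate_value_Icc (by norm_num : (0.18 : ℝ) ≤ 0.19) hc
    (show (0 : ℝ) ∈ _ by constructor <;> norm_num)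
  dsimp only at hs0
  obtain ⟨s1, s2⟩ := hs
  obtain ⟨y, hy0, hy⟩ : ∃ y : ℝ, 0 < y ∧ y ^ 2 = 3 / 4 * s ^ 2 - 2 * s + 2 := by
    have : (0 : ℝ) < 3 / 4 * s ^ 2 - 2 * s + 2 := by nlinarith
    exact ⟨Real.sqrt _, Real.sqrt_pos.2 this, Real.sq_sqrt this.le⟩
  obtain ⟨γ, hγ⟩ : ∃ γ : ℂ, γ = ⟨(4 - s) / 2, y⟩ := ⟨_, rfl⟩
  have hre : γ.re = (4 - s) / 2 := by rw [hγ]
  have him : γ.im = y := by rw [hγ]
  have hn2 : ‖γ‖ ^ 2 = s ^ 2 - 4 * s + 6 := by
    rw [← Complex.normSq_eq_norm_sq, Complex.normSq_apply, hre, him]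
    nlinarith
  have hγe : γ = ((4 - s) / 2 : ℝ) + y * I := by
    apply Complex.ext <;> simp [hre, him]
  have hyC : (y : ℂ) ^ 2 = 3 / 4 * (s : ℂ) ^ 2 - 2 * s + 2 := by
    have := congrArg (fun x : ℝ => (x : ℂ)) hy
    push_cast at this
    exact this
  have hsC : (s : ℂ) ^ 3 - 4 * (s : ℂ) ^ 2 + 6 * s - 1 = 0 := by
    exact_mod_cast congrArg (fun x : ℝ => (x : ℂ)) hs0
  have hquad : ∀ z : ℂ, z ^ 3 - 4 * z ^ 2 + 6 * z - 1 =
      (z - s) * ((z - γ) * (z - (starRingEnd ℂ) γ)) := by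
    intro z
    have e1 : γ + (starRingEnd ℂ) γ = 4 - s := by
      rw [Complex.add_conj, hre]
      push_cast
      ring
    have e2 : γ * (starRingEnd ℂ) γ = (s : ℂ) ^ 2 - 4 * s + 6 := by
      rw [Complex.mul_conj, Complex.normSq_eq_norm_sq, hn2]
      push_cast
      ring
    linear_combination (-(z - s) * z) * e1 * (-1) - (z - s) * e2 + hsC
  have hroot : γ ^ 3 - 4 * γ ^ 2 + 6 * γ - 1 = 0 := by
    rw [hquad γ]
    ring
  have hn0 := norm_nonneg γ
  obtain ⟨r, hr⟩ : ∃ r : ℝ, r = ‖γ‖ := ⟨_, rfl⟩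
  rw [← hr] at hn2 hn0
  have q1 : 5.27 < r ^ 2 := by rw [hn2]; nlinarith
  have q2 : r ^ 2 < 5.32 := by rw [hn2]; nlinarith
  have r1 : 2.29 < r := by nlinarith
  have r2 : r < 2.31 := by nlinarith
  refine ⟨γ, hroot, ⟨by rw [him]; exact hy0.ne', by rw [← hr]; linarith, f, f_monic, f_irr, ?_, ?_,
    ?_⟩, by rw [← hr]; linarith, not_dense γ 5 ?_ ?_ ?_ ?_ ?_⟩
  · unfold f
    simp [Polynomial.coeff_X]
  · rw [aeval_f]
    exact hroot
  · intro z hz hz1 hz2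
    rw [aeval_f, hquad, mul_eq_zero, mul_eq_zero, sub_eq_zero, sub_eq_zero, sub_eq_zero] at hz
    rcases hz with h | h | h
    · rw [h, Complex.norm_real, Real.norm_eq_abs, abs_of_pos (by linarith)]
      linarith
    · exact absurd h hz1
    · exact absurd h hz2
  · rw [← hr]
    linarith
  · rw [hre]
    linarith
  · rw [pow_two, Complex.mul_re, hre, him]
    nlinarith
  · rw [← hr]
    have h1 : (0 : ℝ) < r - 1 := by linarith
    rw [div_lt_one (by positivity)]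
    push_cast
    nlinarith
  · rw [← hr]
    have h1 : (0 : ℝ) < r - 1 := by linarith
    have e : r ^ 3 * (1 - ((5 : ℕ) : ℝ) / (r ^ 2 * (r - 1))) = (r ^ 3 * (r - 1) - 5 * r) / (r - 1) := by
      have hr3 : r ≠ 0 := by linarith
      push_cast
      field_simp
    rw [e, lt_div_iff₀ h1]
    have r3 : 12 < r ^ 3 := by nlinarith
    nlinarith

/-- **The answer to the question is no**, also for complex Pisot units. -/
theorem result :
    (¬ ∀ γ : ℂ, γ.im ≠ 0 → 1 < ‖γ‖ → ∀ m : ℕ, ‖γ‖ ^ 2 - 1 < m → RelativelyDense (X m γ)) ∧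
    (¬ ∀ γ : ℂ, IsComplexPisotUnit γ → ∀ m : ℕ, ‖γ‖ ^ 2 - 1 < m → RelativelyDense (X m γ)) ∧
    ¬ RelativelyDense (X 5 (2 + I)) ∧
    (∀ (γ : ℂ) (m : ℕ), 1 < ‖γ‖ → 0 ≤ γ.re → 0 ≤ (γ ^ 2).re →
      (m : ℝ) / (‖γ‖ ^ 2 * (‖γ‖ - 1)) < 1 →
      1 < ‖γ‖ ^ 3 * (1 - (m : ℝ) / (‖γ‖ ^ 2 * (‖γ‖ - 1))) → ¬ RelativelyDense (X m γ)) := by
  obtain ⟨γ, -, h1, h2, h3⟩ := ex_two
  refine ⟨fun h => ?_, fun h => h3 (h γ h1 5 (by exact_mod_cast h2)), ex_one.1,
    fun γ m a b c d e => not_dense γ m a b c d e⟩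
  refine ex_one.1 (h (2 + I) (by simp) ?_ 5 ?_)
  · have h4 := ex_one.2
    have h5 := norm_nonneg (2 + I : ℂ)
    nlinarith
  · rw [ex_one.2]
    norm_num

end Pool.Agent.Results.MP_85e029_nt.SmallArguments
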